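import Pool.Agent.Lib.MP_071b0a_lc.Positive

/-!
# If Choose wins at `κ`, some regular `μ ≤ κ` is generically measurable

Let `ℵ₀ < γ < κ` be regular and suppose that Choose wins `U(κ, bd_κ, <γ)`. Then there is a regular
`μ` with `γ ≤ μ ≤ κ` and `2 ^ ν < μ` for all `ν < γ` which is generically measurable, as witnessed
by a `<γ`-closed notion of forcing. The forcing is the tree of positions of the game below a
suitable position; `μ` is the least size of a partition of `κ` in `V` that is not decided by the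
generic ultrafilter, and normality comes from a minimal undecided function.
-/

open Cardinal Ordinal Set

universe u

namespace Pool.Agent.Results.MP_071b0a_lc.LeastCase

open Pool.Agent.Lib.MP_071b0a_lc

/-- If `ℵ₀ < γ < κ` are regular and Choose wins `U(κ, bd_κ, <γ)`, then some regular `μ` with
`γ ≤ μ ≤ κ` and `2 ^ ν < μ` for all `ν < γ` is generically measurable, as witnessed by a
`<γ`-closed notion of forcing. -/
theorem result (κ γ : Cardinal.{u}) (hκ : κ.IsRegular) (hγ : γ.IsRegular) (hγ0 : ℵ₀ < γ)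
    (hγκ : γ < κ) (h : ChooseWins κ γ) :
    ∃ μ : Cardinal.{u}, μ.IsRegular ∧ γ ≤ μ ∧ μ ≤ κ ∧ (∀ ν < γ, (2 : Cardinal.{u}) ^ ν < μ) ∧
      ∃ (P : Type u) (_ : Preorder P), Nonempty P ∧ IsLtClosed P γ ∧
        IsGenericallyMeasurableBy μ P := by
  obtain ⟨σ, hσ⟩ := h
  have hne : Nonempty (Pts κ) := nonempty_pts hκ.pos.ne'
  have hne2 : Nonempty (Pos (Pts κ) γ) := by
    have h2 : Nonempty (Pts γ) := nonempty_pts hγ.pos.ne'
    obtain ⟨l⟩ := h2
    exact ⟨⟨l, fun _ => Set.univ⟩⟩
  have hD := generates_pos hγ0.le σ hσ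
  have hP : IsLtClosed (Pos (Pts κ) γ) γ := Pos.isLtClosed hγ
  refine ⟨critCard (fun p : Pos (Pts κ) γ => p.cur σ), hD.critCard_regular hP hγ0.le,
    hD.le_critCard hP, ?_, fun ν hν => hD.two_power_lt hP hν,
    hD.exists_genericallyMeasurable hP hγ0⟩
  have := hD.critCard_le
  simpa using this

end Pool.Agent.Results.MP_071b0a_lc.LeastCase
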