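import Pool.Agent.Lib.MP_071b0a_lc.Equiv

/-!
# The negative answer at successors of cardinals of small cofinality

Let `γ` be regular and `lam ≥ γ` a cardinal with `cf lam < γ` (for instance `γ = ℵ₁` and
`cf lam = ℵ₀`), and let `κ = lam⁺`. In ZFC:
* no `<γ`-closed forcing adds a uniform `V`-normal `V`-ultrafilter on `κ` (by König's theorem
  `κ ≤ lam ^ cf(lam)`);
* Choose wins `U(κ, bd_κ, <γ)` iff some `<γ`-closed forcing adds a uniform `γ`-complete
  `V`-ultrafilter on `κ`.

So the implication asked for in the question fails at `κ` iff there is such a forcing. In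
particular it fails if there is a uniform `γ`-complete ultrafilter on `κ`, and this is the case
if there is a strongly compact cardinal in `[γ, lam]`.
-/

open Cardinal Ordinal Set

universe u v

namespace Pool.Agent.Results.MP_071b0a_lc.StronglyCompact

open Pool.Agent.Lib.MP_071b0a_lc

/-- Let `γ` be regular, `γ ≤ lam` and `cf lam < γ`. Then `κ = lam⁺ > γ` is regular and
(1) no `<γ`-closed notion of forcing witnesses that `κ` is generically measurable;
(2) Choose wins `U(κ, bd_κ, <γ)` iff some `<γ`-closed notion of forcing adds a uniform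
`V`-ultrafilter on `κ` closed under intersections of fewer than `γ` sets;
(3) Choose wins if there is a uniform `γ`-complete ultrafilter on `κ`;
(4) such an ultrafilter exists if there is a strongly compact cardinal `μ` with `γ ≤ μ ≤ lam`. -/
theorem result (γ lam : Cardinal.{u}) (hγ : γ.IsRegular) (hlam : γ ≤ lam)
    (hcof : lam.ord.cof < γ) :
    (Order.succ lam).IsRegular ∧ γ < Order.succ lam ∧
      (∀ (P : Type v) [Preorder P] [Nonempty P], IsLtClosed P γ →
        ¬ IsGenericallyMeasurableBy (Order.succ lam) P) ∧
      (ChooseWins (Order.succ lam) γ ↔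
        ∃ (P : Type u) (_ : Preorder P), Nonempty P ∧ IsLtClosed P γ ∧
          ∃ U : PowerName (Pts (Order.succ lam)) P, IsCompleteUltrafilterName γ U) ∧
      ((∃ U : Ultrafilter (Pts (Order.succ lam)),
          CardinalInterFilter (U : Filter (Pts (Order.succ lam))) γ ∧
            ∀ A : Set (Pts (Order.succ lam)), BddAbove A → A ∉ U) →
        ChooseWins (Order.succ lam) γ) ∧
      ∀ μ : Cardinal.{u}, IsStronglyCompact μ → γ ≤ μ → μ ≤ lam →
        ∃ U : Ultrafilter (Pts (Order.succ lam)),
          CardinalInterFilter (U : Filter (Pts (Order.succ lam))) γ ∧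
            ∀ A : Set (Pts (Order.succ lam)), BddAbove A → A ∉ U := by
  have hl : ℵ₀ ≤ lam := hγ.aleph0_le.trans hlam
  have hreg : (Order.succ lam).IsRegular := isRegular_succ hl
  have hlt : lam < Order.succ lam := Order.lt_succ lam
  refine ⟨hreg, hlam.trans_lt hlt, ?_, chooseWins_iff hγ, ?_, ?_⟩
  · intro P _ _ hP
    exact not_generically_measurable hreg.aleph0_le (hlam.trans hlt.le) hlt hcof
      (Order.succ_le_of_lt (lt_power_cof_ord hl)) P hP
  · rintro ⟨U, hU, hu⟩
    exact chooseWins_of_ultrafilter U hU hu
  · intro μ hμ hγμ hμlam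
    obtain ⟨U, hU, hu⟩ := hμ.exists_uniform hreg (hμlam.trans hlt.le)
    exact ⟨U, ⟨fun S hS hmem => hU.cardinal_sInter_mem S (hS.trans_le hγμ) hmem⟩, hu⟩

end Pool.Agent.Results.MP_071b0a_lc.StronglyCompact
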